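import Pool.Agent.W600.Alg.Thm

/-!
# Elliptic curves of high degree in multi-cyclic covers of complete intersections with `K ≤ 0`

`X` is the projective variety in the weighted projective space `P(1, …, 1, e 1, …, e r)` with
the equations `G j (x) = 0` (of degree `d j`) and `w i ^ m i = F i (x)` (of degree `m i * e i`),
and `K = O(∑ (m i - 1) e i + ∑ d j - n - 1)` is at most `0`. For every point of `X` off the branch
locus there are an elliptic curve `E` and, for every `N`, a non-constant morphism `E → X` of degree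
`D * 4 ^ N` through the point. So `X` is not groupless, not bounded, not algebraically hyperbolic.
-/

set_option autoImplicit false

namespace Pool.Agent.Results.MP_6f117a_ag.EllipticFamilies

open MvPolynomial Pool.Agent.W600.Alg

theorem result {k : Type*} [Field k] [IsAlgClosed k] [CharZero k] {n r g : ℕ}
    {m e : Fin r → ℕ} (hm : ∀ i, 2 ≤ m i) (he : ∀ i, 0 < e i)
    {F : Fin r → MvPolynomial (Fin (n + 1)) k} (hF : ∀ i, (F i).IsHomogeneous (m i * e i))
    {G : Fin g → MvPolynomial (Fin (n + 1)) k} {d : Fin g → ℕ} (hG : ∀ i, (G i).IsHomogeneous (d i))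
    (hK : ∑ i, (m i - 1) * e i + ∑ j, d j ≤ n + 1)
    (h0 : ∑ i, (m i - 1) * e i + ∑ j, d j = n + 1 →
      (∃ i, 3 ∣ m i ∨ 4 ∣ m i) ∨ 2 ≤ ∑ i with 2 ∣ m i, e i)
    (h0' : ∑ i, (m i - 1) * e i + ∑ j, d j = n → 0 < r)
    {P : (Fin (n + 1) → k) × (Fin r → k)} (hP : P ∈ Pts m F G 1)
    (hPF : ∀ i, eval P.1 (F i) ≠ 0) :
    EllipticThrough e (Pts m F G 1) P :=
  elliptic hm he hF hG hK h0 h0' hP hPF

end Pool.Agent.Results.MP_6f117a_ag.EllipticFamilies
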