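import Pool.Agent.W603.CX.Groupless

/-!
Algebraic hyperbolicity of projective varieties given by forms with few monomials that are high
powers: it is enough that there are no nonconstant morphisms from the multiplicative group.
-/

set_option autoImplicit false

namespace Pool.Agent.Results.MP_6f117a_ag.FewMonomials

open MvPolynomial Pool.Agent.W603.CX

universe u v

/-- Let `T i` be finitely many finite sets of exponent vectors such that the exponents in `T i` are
multiples of some `N i`, at least the square of the number of elements of `T i` minus one. There
is a constant `A` such that, for every projective variety `X` over an algebraically closed field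
`k` of characteristic zero given by forms `F i` whose monomials have exponents in `T i`, the
following are equivalent: all morphisms `t ↦ (x_0 t ^ b_0 : … : x_n t ^ b_n)` from the
multiplicative group to `X` are constant; `X` is algebraically hyperbolic, with the constant `A`;
for every smooth projective curve the degrees of the morphisms from it to `X` are bounded. -/
theorem result {n : ℕ} {ι : Type v} [Finite ι] (T : ι → Finset (Fin (n + 1) →₀ ℕ))
    (hT : ∀ i, ∃ N : ℕ, 0 < N ∧ ((T i).card - 1) ^ 2 ≤ N ∧ ∀ α ∈ T i, ∀ j, N ∣ α j) :
    ∃ A : ℕ, ∀ (k : Type u) [Field k] [IsAlgClosed k] [CharZero k]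
      (F : ι → MvPolynomial (Fin (n + 1)) k), (∀ i, (F i).support ⊆ T i) →
      (∀ i, ∃ d, (F i).IsHomogeneous d) →
      [OrbitsConstant F, AlgHyperbolic A F, BoundedOnCurves F].TFAE :=
  groupless_tfae T hT

end Pool.Agent.Results.MP_6f117a_ag.FewMonomials
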