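import Pool.Agent.W602.GT.Four

/-!
MP_6f117a_ag, Q1: the four notions of hyperbolicity for projective varieties given by sums of few
high powers, or by few monomials with large exponents.
-/

set_option autoImplicit false

namespace Pool.Agent.Results.MP_6f117a_ag.HighPowerSystems

open Pool.Agent.W602.GT Pool.Agent.W603.CX

/-- Let `X` be a projective variety given by sums of at most `s` high powers of linear forms, or by
forms with at most `s` monomials and highly divisible exponents. Equivalent are: `X` is
algebraically hyperbolic; the degrees of the morphisms from each smooth projective curve to `X`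
are bounded; there are no nonconstant morphisms from the multiplicative group to `X`; all closed
subvarieties of `X` of positive dimension are of general type. -/
theorem result {k : Type} [Field k] [IsAlgClosed k] [CharZero k] {n : ℕ} {ι : Type} [Finite ι]
    {F : ι → MvPolynomial (Fin (n + 1)) k} {s N : ℕ} (hF : HighPowers s N F) (hn : n ≠ 0)
    (hN : 1 ≤ N) (hsN : n * ((s + 1) * ((s - 1) * (s - 2) / 2)) ≤ N) :
    [∃ A : ℕ, AlgHyperbolic A F, BoundedOnCurves F, ∀ P, ¬ GmCurve F P, AllGeneralType F].TFAE :=
  four hF hn hN hsN

end Pool.Agent.Results.MP_6f117a_ag.HighPowerSystems
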