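import Pool.Agent.W603.CX.WarAll

/-!
Algebraic hyperbolicity of projective varieties given by sums of few high powers of linear forms:
it is enough that there are no lines.
-/

set_option autoImplicit false

namespace Pool.Agent.Results.MP_6f117a_ag.PowerSums

open MvPolynomial Pool.Agent.W603.PV Pool.Agent.W603.CX

universe u v

/-- Let `X` be a projective variety over an algebraically closed field `k` of characteristic zero
given by finitely many forms, each of which is a sum of `s` terms `c ℓ ^ N` with `c ≠ 0` in `k`, `ℓ`
a linear form and `N ≥ (s - 1) ^ 2`. The following are equivalent: `X` contains no line; `X` is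
algebraically hyperbolic; for every smooth projective curve the degrees of the morphisms from it
to `X` are bounded. -/
theorem result {k : Type u} [Field k] [IsAlgClosed k] [CharZero k] {n : ℕ} {ι : Type v} [Finite ι]
    (F : ι → MvPolynomial (Fin (n + 1)) k)
    (hF : ∀ i, ∃ s N : ℕ, 0 < N ∧ (s - 1) ^ 2 ≤ N ∧ IsPowSum (F i) s N) :
    [¬ ContainsLine F, ∃ A : ℕ, AlgHyperbolic A F, BoundedOnCurves F].TFAE :=
  lines_tfae F hF

end Pool.Agent.Results.MP_6f117a_ag.PowerSums
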